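import Pool.Agent.Helper34.R9.Sheet

set_option autoImplicit false

namespace Pool.Helper34.R9

open Polynomial

namespace S95

/-- the inner quadratic -/
noncomputable def G (M zb E : ℤ) : ℤ[X] := C E - (C zb + C M * X) ^ 2

theorem G_eq (M zb E : ℤ) :
    G M zb E = C (-M ^ 2) * X ^ 2 + C (-(2 * zb * M)) * X + C (E - zb ^ 2) := by
  unfold G
  simp only [map_neg, map_mul, map_pow, map_sub, map_ofNat]
  ring

theorem G_deg (M zb E : ℤ) : (G M zb E).natDegree ≤ 2 := by
  rw [G_eq]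
  exact natDegree_quadratic_le

theorem G_coeff (M zb E : ℤ) : (G M zb E).coeff 2 = -M ^ 2 := by
  rw [G_eq, coeff_add, coeff_add, coeff_C_mul, coeff_C_mul, coeff_X_pow, coeff_X, coeff_C]
  simp

theorem G_eval (M zb E b : ℤ) : (G M zb E).eval b = E - (zb + M * b) ^ 2 := by
  unfold G
  simp

/-- the composed polynomial -/
noncomputable def W (P : ℤ[X]) (M κ zb E : ℤ) : ℤ[X] :=
  ∑ i ∈ Finset.range 6, C (P.coeff i * κ ^ (5 - i)) * G M zb E ^ i

theorem term_deg (P : ℤ[X]) (M κ zb E : ℤ) (i : ℕ) :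
    (C (P.coeff i * κ ^ (5 - i)) * G M zb E ^ i).natDegree ≤ i * 2 :=
  le_trans (natDegree_C_mul_le _ _) (natDegree_pow_le_of_le i (G_deg M zb E))

theorem W_deg (P : ℤ[X]) (M κ zb E : ℤ) : (W P M κ zb E).natDegree ≤ 10 := by
  unfold W
  refine natDegree_sum_le_of_forall_le _ _ ?_
  intro i hi
  rw [Finset.mem_range] at hi
  exact le_trans (term_deg P M κ zb E i) (by omega)

theorem W_coeff (P : ℤ[X]) (M κ zb E : ℤ) :
    (W P M κ zb E).coeff 10 = P.coeff 5 * (-M ^ 2) ^ 5 := by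
  unfold W
  rw [finsetSum_coeff, Finset.sum_range_succ, Finset.sum_eq_zero, zero_add]
  · rw [coeff_C_mul, show (10 : ℕ) = 5 * 2 from rfl, coeff_pow_of_natDegree_le (G_deg M zb E),
      G_coeff]
    simp
  · intro i hi
    rw [Finset.mem_range] at hi
    exact coeff_eq_zero_of_natDegree_lt (lt_of_le_of_lt (term_deg P M κ zb E i) (by omega))

theorem W_eval (P : ℤ[X]) (hP : P.natDegree = 5) (M κ zb E b t : ℤ)
    (ht : κ * t = E - (zb + M * b) ^ 2) : (W P M κ zb E).eval b = κ ^ 5 * P.eval t := by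
  unfold W
  rw [eval_finsetSum, eval_eq_sum_range, hP, Finset.mul_sum]
  refine Finset.sum_congr rfl ?_
  intro i hi
  rw [Finset.mem_range] at hi
  rw [eval_mul, eval_C, eval_pow, G_eval, ← ht, mul_pow]
  have h : κ ^ 5 = κ ^ (5 - i) * κ ^ i := by
    rw [← pow_add]
    congr 1
    omega
  rw [h]
  ring

end S95

/-- row SV3 -/
theorem st_SV3 (hR : ST_ROOT) : ST_SV3 := by
  intro P q n M κ zb E hq hP hl hM F hF
  refine hR (S95.W P M κ zb E) 10 q n hq (S95.W_deg P M κ zb E) ?_ F ?_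
  · rw [S95.W_coeff]
    intro h
    have hq' : Prime (q : ℤ) := Nat.prime_iff_prime_int.1 hq
    rcases hq'.dvd_or_dvd h with h1 | h1
    · apply hl
      rw [leadingCoeff, hP]
      exact h1
    · have h2 := hq'.dvd_of_dvd_pow h1
      rw [dvd_neg] at h2
      exact hM (hq'.dvd_of_dvd_pow h2)
  · intro b hb
    obtain ⟨h1, t, h2, h3⟩ := hF b hb
    refine ⟨h1, ?_⟩
    rw [S95.W_eval P hP M κ zb E b t h2]
    exact dvd_mul_of_dvd_right h3 _

end Pool.Helper34.R9
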